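import Pool.Agent.TH837.VP.WSk

/-!
# MP_35c45d_lc: weakly skew circuits for the permanent of the Vandermonde matrix

Let `V_n = per (x_i ^ j)` (`0 ≤ j < n`) be the permanent of the Vandermonde matrix, that is, the sum
of `∏ x_i ^ σ(i)` over all permutations `σ` of `{0, …, n-1}`, a symmetric polynomial in only `n`
variables (the monomial symmetric polynomial of the staircase partition). The determinant of the
Vandermonde matrix is a product of linear forms. We show that over fields of characteristic zero the
family `V_n` has weakly skew circuits of polynomial size if and only if the permanent of the generic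
matrix has. Since the permanent is complete for `VNP`, the classes `VP_ws` and `VNP` are equal if and
only if `(V_n)` is in `VP_ws`.

`WSComputable s p` (file `Pool/Agent/TH837/VP/WSk.lean`): `p` is computed by a weakly skew circuit
with at most `s` nodes.

The proof: the `m × m` permanent is a linear combination of polynomially many polynomials
`V_k(ℓ_1, …, ℓ_k)` with `k` polynomial in `m` and affine forms `ℓ_i` in one variable each (theorem
`rep` in `Pool/Agent/TH837/VP/Rep.lean`; the proof is described in
`Pool/Agent/Results/MP_8b1d3b_lc/VandermondePermanents.lean`).
-/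

set_option autoImplicit false

namespace Pool.Agent.Results.MP_35c45d_lc.VandermondePermanents

open MvPolynomial
open Pool.Agent.TH837.VP (WSComputable)

/-- The permanent of the generic `n × n` matrix. -/
noncomputable def genericPermanent (F : Type) [Field F] (n : ℕ) : MvPolynomial (Fin n × Fin n) F :=
  (Matrix.of fun i j : Fin n => (X (i, j) : MvPolynomial (Fin n × Fin n) F)).permanent

/-- The permanent of the Vandermonde matrix of `n` variables: the sum of `∏ i, x_i ^ σ(i)` over the
permutations `σ` of `{0, …, n-1}`. -/
noncomputable def vandermondePermanent (F : Type) [Field F] (n : ℕ) : MvPolynomial (Fin n) F :=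
  ∑ σ : Equiv.Perm (Fin n), ∏ i, (X i : MvPolynomial (Fin n) F) ^ (σ i : ℕ)

theorem vandermondePermanent_eq (F : Type) [Field F] (n : ℕ) :
    vandermondePermanent F n = Pool.Agent.TH837.VP.gvan F n := by
  rw [Pool.Agent.TH837.VP.gvan, ← Matrix.permanent_transpose]
  rfl

/-- **Weakly skew circuits for the permanents of Vandermonde matrices and for the permanent.** Let
`F` be a field of characteristic zero, for example `ℂ`.
(1) A weakly skew circuit of size `s` for the permanent of the generic `n × n` matrix gives one of
size `(2 s + 1) (2 n (n + 1) + 1)` for the permanent of the Vandermonde matrix of `n` variables.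
(2) Weakly skew circuits of size at most `B` for the permanents of the Vandermonde matrices of at
most `700 (m + 1) ^ 4` variables give one of size at most
`10 ^ 11 (m + 1) ^ 17 ((2 B + 1) (3500 (m + 1) ^ 4 + 1) + 3) + 1` for the permanent of the generic
`m × m` matrix.
(3) The permanents of the generic matrices have weakly skew circuits of polynomial size if and only
if the permanents of the Vandermonde matrices have. -/
theorem result (F : Type) [Field F] [CharZero F] :
    (∀ n s : ℕ, WSComputable s (genericPermanent F n) →
      WSComputable ((2 * s + 1) * (n * (2 * n + 2) + 1)) (vandermondePermanent F n)) ∧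
    (∀ m B : ℕ, (∀ n ≤ 700 * (m + 1) ^ 4, WSComputable B (vandermondePermanent F n)) →
      WSComputable (10 ^ 11 * (m + 1) ^ 17 * ((2 * B + 1) * (3500 * (m + 1) ^ 4 + 1) + 3) + 1)
        (genericPermanent F m)) ∧
    ((∃ K e : ℕ, ∀ n : ℕ, WSComputable (K * (n + 1) ^ e) (genericPermanent F n)) ↔
      ∃ K e : ℕ, ∀ n : ℕ, WSComputable (K * (n + 1) ^ e) (vandermondePermanent F n)) := by
  simp only [vandermondePermanent_eq]
  exact ⟨fun n s h => Pool.Agent.TH837.VP.van_of_per_ws n s h,
    fun m B h => Pool.Agent.TH837.VP.per_of_van_ws m B h, Pool.Agent.TH837.VP.per_iff_van_ws F⟩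

end Pool.Agent.Results.MP_35c45d_lc.VandermondePermanents
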